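import Pool.Agent.CF98.Defs

/-!
THEOREM SADJ (note 2982 of MP_e6151a_ag): the definition of completely non-adjacent sets.

`NAP r E F M S K1 K2` : in the minor `M / F` the set `S` is rigid (`|S| = 2 ρ - 1`, `|A| ≤ 2 ρ(A) - 1` for nonempty `A ⊆ S`), and `K1`, `K2`
are nonempty sets of non-loops without coloops over `F` and without parallel pairs such that for every `J ⊆ S` with `ρ - 1` elements whose
complement in `S` is a basis of `M / F` all of `K1` or all of `K2` is spanned by `J ∪ F`.  They are skew over `F` and do not span `M`.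
-/

set_option autoImplicit false

namespace Pool.Agent.SA65

open Finset Pool.Agent.DT3 Pool.Agent.CF98

variable {α : Type*} [DecidableEq α]

/-- Completely non-adjacent sets `K1`, `K2` in the minor `M / F`. -/
structure NAP (r : Finset α → ℕ) (E F M S K1 K2 : Finset α) : Prop where
  ME : M ⊆ E
  FM : F ⊆ M
  SM : S ⊆ M
  SF : Disjoint S F
  K1M : K1 ⊆ M
  K2M : K2 ⊆ M
  K1S : Disjoint K1 S
  K2S : Disjoint K2 S
  n1 : K1.Nonempty
  n2 : K2.Nonempty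
  nl : ∀ x ∈ K1 ∪ K2, r (insert x F) ≠ r F
  p1 : ∀ x ∈ K1, ∀ y ∈ K1, x ≠ y → r {x, y} = 2
  p2 : ∀ x ∈ K2, ∀ y ∈ K2, x ≠ y → r {x, y} = 2
  c1 : ∀ x ∈ K1, r (F ∪ K1.erase x) = r (F ∪ K1)
  c2 : ∀ x ∈ K2, r (F ∪ K2.erase x) = r (F ∪ K2)
  card : S.card + 1 + 2 * r F = 2 * r M
  rig : ∀ A ⊆ S, A.Nonempty → A.card + 1 + 2 * r F ≤ 2 * r (A ∪ F)
  na : ∀ J ⊆ S, J.card + 1 + r F = r M → r ((S \ J) ∪ F) = r M →
    (∀ x ∈ K1, r (insert x (J ∪ F)) ≠ r M) ∨ (∀ x ∈ K2, r (insert x (J ∪ F)) ≠ r M)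
  sk : r (F ∪ K1) + r (F ∪ K2) = r (F ∪ (K1 ∪ K2)) + r F
  sp : r (F ∪ (K1 ∪ K2)) ≠ r M

end Pool.Agent.SA65
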