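import Pool.Agent.EX84.K2B
import Pool.Agent.EX65.Mt

/-!
THEOREM SADJ (note 2982 of MP_e6151a_ag), part one: all the exchanges of a closest pair at the same time.

* `em` : the exact matching of a closest pair.
* `multi` : if `d y` lies in the circuit of `y` outside `H y` for all `y`, then `X` without the elements `d y` is good and has the colour
  of `T0`, where `X = T0 ∪ T1`.
-/

set_option autoImplicit false

namespace Pool.Agent.SA65

open Finset Pool.Agent.DT3 Pool.Agent.CF98 Pool.Agent.WT59 Pool.Agent.EX84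

variable {α : Type*} [DecidableEq α] {r : Finset α → ℕ} {E T0 T1 : Finset α} {f : ℕ} {y z : α}
  {Q : Finset α → Prop} {m c : α → α} {H : α → Finset α}

/-- Exact matching. -/
theorem em (hE : Env r E f) (Q : Finset α → Prop) (T0 T1 : Finset α) (hc : Clo r E f Q T0 T1) :
    ∃ m c H, EM r E f T0 T1 m c H := by
  obtain ⟨m, c, H, h⟩ := EX65.em hE hc.g0 hc.g1 hc.q0 hc.q1 hc.min
  exact ⟨m, c, H, ⟨h.mp, h.cp, h.mi, h.ci, h.hE, h.t0, h.t1, h.n0, h.n1, h.x0, h.x1, h.in0, h.in1, h.c0, h.c1, h.ne⟩⟩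

/-- One exchange; the other circuits stay the same. -/
theorem step2 (hE : Env r E f) (hc : Clo r E f Q T0 T1) (hm : EM r E f T0 T1 m c H)
    (hk : 2 ≤ (T0 \ T1).card) (hy : y ∈ T1 \ T0) (hz : z ∈ T0) (hzH : z ∉ H y)
    (hr : r (insert y (T0.erase z)) = f) :
    ∃ m' c' H', Clo r E f Q (insert y (T0.erase z)) T1 ∧ EM r E f (insert y (T0.erase z)) T1 m' c' H' ∧
      insert y (T0.erase z) \ T1 = T0 \ T1 ∧
      ∀ y' ∈ T1 \ T0, y' ≠ y → y' ∈ T1 \ insert y (T0.erase z) ∧ H' y' = H y' ∧ c' y' = c y' := by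
  obtain ⟨hzT, hc', e1, e2⟩ := step hE hc hm hk hy hz hzH hr
  obtain ⟨m', c', H', hm', h3⟩ := step_em hE (em hE) hc hm hk hy hz hzH hr
  refine ⟨m', c', H', hc', hm', e1, fun y' hy' hne => ?_⟩
  obtain ⟨h4, h5, h6⟩ := h3 y' hy' hne
  refine ⟨h4, h6, ?_⟩
  have h7 := hm.cp y' hy'
  have h8 := (hm.c1 y' hy' (c y') h7).2 rfl
  exact ((hm'.c1 y' h4 (c y') (by rw [e1]; exact h7)).1 h8).symm

/-- All exchanges. -/
theorem multi (hE : Env r E f) (hc : Clo r E f Q T0 T1) (hm : EM r E f T0 T1 m c H)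
    (hk : 2 ≤ (T0 \ T1).card) (d : α → α) (hd : ∀ y ∈ T1 \ T0, d y ∈ fc r f T0 y \ H y) (J : Finset α) :
    J ⊆ T1 \ T0 → ∃ T m' c' H', Clo r E f Q T T1 ∧ EM r E f T T1 m' c' H' ∧ T \ T1 = T0 \ T1 ∧
      T = (T0 ∪ T1) \ (((T1 \ T0) \ J) ∪ J.image d) ∧
      ∀ y ∈ (T1 \ T0) \ J, y ∈ T1 \ T ∧ H' y = H y ∧ c' y = c y := by
  induction J using Finset.induction_on with
  | empty =>
    intro _
    refine ⟨T0, m, c, H, hc, hm, rfl, ?_, ?_⟩
    · rw [Finset.sdiff_empty, image_empty, union_empty]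
      ext w
      simp only [mem_sdiff, mem_union]
      tauto
    · intro y hy
      exact ⟨(mem_sdiff.1 hy).1, rfl, rfl⟩
  | insert a J ha ih =>
    intro hJ
    obtain ⟨T, m', c', H', hcT, hmT, e1, e2, h3⟩ := ih ((subset_insert a J).trans hJ)
    have haP : a ∈ T1 \ T0 := hJ (mem_insert_self a J)
    have haJ : a ∈ (T1 \ T0) \ J := mem_sdiff.2 ⟨haP, ha⟩
    obtain ⟨b1, b2, b3⟩ := h3 a haJ
    have hkT : 2 ≤ (T \ T1).card := by rw [e1]; exact hk
    have hfc : fc r f T a = fc r f T0 a := by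
      rw [hmT.fc_eq hE hcT b1, b3, hm.fc_eq hE hc haP]
    have hda := hd a haP
    have hda' := mem_sdiff.1 hda
    have hdT : ∀ y ∈ T1 \ T0, d y = y ∨ d y ∈ T0 := by
      intro y hy
      rcases mem_fc.1 (mem_sdiff.1 (hd y hy)).1 with h | h
      · exact Or.inl h
      · exact Or.inr h.1
    have haim : a ∉ J.image d := by
      intro h
      obtain ⟨y, hy, hya⟩ := mem_image.1 h
      rcases hdT y (hJ (mem_insert_of_mem hy)) with h1 | h1
      · exact ha (by rw [← hya, h1]; exact hy)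
      · exact (mem_sdiff.1 haP).2 (hya ▸ h1)
    have hmT' : ∀ w, w ∈ T ↔ (w ∈ T0 ∨ w ∈ T1) ∧ ¬ ((w ∈ T1 ∧ w ∉ T0) ∧ w ∉ J) ∧ w ∉ J.image d := by
      intro w
      rw [e2]
      simp only [mem_sdiff, mem_union, not_or]
    rw [← hfc] at hda'
    rcases mem_fc.1 hda'.1 with h | ⟨h4, h5⟩
    · refine ⟨T, m', c', H', hcT, hmT, e1, ?_, ?_⟩
      · rw [e2]
        congr 1
        ext w
        rw [image_insert, h]
        simp only [mem_union, mem_sdiff, mem_insert, not_or]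
        constructor
        · rintro (⟨h6, h7⟩ | h6)
          · by_cases hwa : w = a
            · exact Or.inr (Or.inl hwa)
            · exact Or.inl ⟨h6, hwa, h7⟩
          · exact Or.inr (Or.inr h6)
        · rintro (⟨h6, h7, h8⟩ | h6 | h6)
          · exact Or.inl ⟨h6, h8⟩
          · rw [h6]
            exact Or.inl ⟨mem_sdiff.1 haP, ha⟩
          · exact Or.inr h6
      · intro y hy
        refine h3 y (mem_sdiff.2 ⟨(mem_sdiff.1 hy).1, fun h6 => (mem_sdiff.1 hy).2 (mem_insert_of_mem h6)⟩)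
    · have hdH : d a ∉ H' a := by rw [b2]; exact hda'.2
      obtain ⟨m'', c'', H'', g1, g2, g3, g4⟩ := step2 hE hcT hmT hkT b1 h4 hdH h5
      refine ⟨_, m'', c'', H'', g1, g2, g3.trans e1, ?_, ?_⟩
      · have hane : a ≠ d a := by
          intro h6
          exact (mem_sdiff.1 b1).2 (by rw [h6]; exact h4)
        ext w
        have hwT := hmT' w
        have haP' := mem_sdiff.1 haP
        rw [mem_insert, mem_erase, hwT, image_insert]
        simp only [mem_sdiff, mem_union, mem_insert, not_or]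
        constructor
        · rintro (h6 | ⟨h6, h7, h8, h9⟩)
          · rw [h6]
            exact ⟨Or.inr haP'.1, fun h7 => h7.2.1 rfl, hane, haim⟩
          · exact ⟨h7, fun h10 => h8 ⟨h10.1, h10.2.2⟩, h6, h9⟩
        · rintro ⟨h6, h7, h8, h9⟩
          by_cases hwa : w = a
          · exact Or.inl hwa
          · exact Or.inr ⟨h8, h6, fun h10 => h7 ⟨h10.1, hwa, h10.2⟩, h9⟩
      · intro y hy
        have hy1 := mem_sdiff.1 hy
        have hyJ : y ∈ (T1 \ T0) \ J := mem_sdiff.2 ⟨hy1.1, fun h6 => hy1.2 (mem_insert_of_mem h6)⟩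
        have hya : y ≠ a := fun h6 => hy1.2 (by rw [h6]; exact mem_insert_self a J)
        obtain ⟨k1, k2, k3⟩ := h3 y hyJ
        obtain ⟨l1, l2, l3⟩ := g4 y k1 hya
        exact ⟨l1, l2.trans k2, l3.trans k3⟩

/-- The complement of a choice of one element from each `fc r f T0 y \ H y` in `T0 ∪ T1`. -/
theorem multi_all (hE : Env r E f) (hc : Clo r E f Q T0 T1) (hm : EM r E f T0 T1 m c H)
    (hk : 2 ≤ (T0 \ T1).card) (d : α → α) (hd : ∀ y ∈ T1 \ T0, d y ∈ fc r f T0 y \ H y) :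
    Gd r E f ((T0 ∪ T1) \ (T1 \ T0).image d) ∧ Q ((T0 ∪ T1) \ (T1 \ T0).image d) := by
  obtain ⟨T, m', c', H', hcT, -, -, e2, -⟩ := multi hE hc hm hk d hd (T1 \ T0) (Subset.refl _)
  rw [Finset.sdiff_self, empty_union] at e2
  rw [← e2]
  exact ⟨hcT.g0, hcT.q0⟩

end Pool.Agent.SA65
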