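import Pool.Agent.EX84.Fc
import Pool.Agent.WT59.St

/-!
THEOREM SADJ (note 2982 of MP_e6151a_ag), part two: the common block.

`M y`, `y ∈ Y`, are tight sets for `T0` with pairwise intersections in the tight set `F`, `y ∈ M y`, and `J y` is a hyperplane of
`(M y) / F` whose complement in `(M y \ F) \ X`, `X = T0 ∪ Y`, spans `(M y) / F`.  If `d y` and `d' y` are not spanned by `J y ∪ F` for
all `y`, then `X` without the `d y` and `X` without the `d' y` share a block.
-/

set_option autoImplicit false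

namespace Pool.Agent.SA65

open Finset Pool.Agent.DT3 Pool.Agent.CF98 Pool.Agent.WT59 Pool.Agent.EX84

variable {α : Type*} [DecidableEq α] {r : Finset α → ℕ} {E T0 F X Y : Finset α} {f : ℕ} {M J : α → Finset α}

/-- Unions of tight sets are tight. -/
theorem un_tight (hr : RankFn r) (hn : ∀ A ⊆ E, 0 ≤ sg r T0 A) (hFE : F ⊆ E) (hFt : sg r T0 F = 0)
    (hME : ∀ y ∈ Y, M y ⊆ E) (hMt : ∀ y ∈ Y, sg r T0 (M y) = 0) :
    Y.biUnion M ∪ F ⊆ E ∧ sg r T0 (Y.biUnion M ∪ F) = 0 := by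
  induction Y using Finset.induction_on with
  | empty => rw [biUnion_empty, empty_union]; exact ⟨hFE, hFt⟩
  | insert a Y ha ih =>
    obtain ⟨h1, h2⟩ := ih (fun y hy => hME y (mem_insert_of_mem hy)) (fun y hy => hMt y (mem_insert_of_mem hy))
    have h3 := hME a (mem_insert_self a Y)
    have h4 := hMt a (mem_insert_self a Y)
    rw [biUnion_insert, union_assoc]
    exact ⟨union_subset h3 h1, (ti_mod hr hn h3 h1 h4 h2).2.1⟩

/-- A set spanning `F`, all the `M y` and the rest. -/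
theorem spanW (hr : RankFn r) {W B C : Finset α} {U : α → Finset α} (hB : B ⊆ W) (hBF : B ⊆ F) (hBr : r B = r F)
    (hU : ∀ y ∈ Y, U y ⊆ W) (hUM : ∀ y ∈ Y, U y ⊆ M y) (hFM : ∀ y ∈ Y, F ⊆ M y)
    (hUr : ∀ y ∈ Y, r (U y ∪ F) = r (M y)) (hC : C ⊆ W) (hCr : r (C ∪ (Y.biUnion M ∪ F)) = f) : f ≤ r W := by
  have h1 : r (W ∪ F) = r W := by
    have h2 := rk_cup_congr hr hBF hBr W
    rw [union_eq_right.2 hB, union_comm F W] at h2
    exact h2.symm
  have h2 : ∀ y ∈ Y, r (M y ∪ (W ∪ F)) = r (W ∪ F) := by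
    intro y hy
    have h3 := rk_cup_congr hr (union_subset (hUM y hy) (hFM y hy)) (hUr y hy) (W ∪ F)
    have h4 : U y ∪ F ∪ (W ∪ F) = W ∪ F := by
      rw [union_eq_right]
      exact union_subset ((hU y hy).trans subset_union_left) subset_union_right
    rw [h4] at h3
    exact h3.symm
  have h3 : r (W ∪ F ∪ Y.biUnion M) = r (W ∪ F) := by
    apply rk_union_eq hr
    intro z hz
    obtain ⟨y, hy, hzy⟩ := mem_biUnion.1 hz
    have h4 := h2 y hy
    have h5 := hr.mono (insert z (W ∪ F)) (M y ∪ (W ∪ F))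
      (insert_subset (mem_union_left _ hzy) subset_union_right)
    have h6 := hr.mono (W ∪ F) (insert z (W ∪ F)) (subset_insert z _)
    omega
  have h4 := hr.mono (C ∪ (Y.biUnion M ∪ F)) (W ∪ F ∪ Y.biUnion M) (by
    intro z hz
    simp only [mem_union] at hz ⊢
    rcases hz with h | h | h
    · exact Or.inl (Or.inl (hC h))
    · exact Or.inr h
    · exact Or.inl (Or.inr h))
  omega

/-- The common block. -/
theorem glue (hE : Env r E f) (hT : T0 ⊆ E) (hTc : T0.card = f) (hYE : Y ⊆ E) (hYT : ∀ y ∈ Y, y ∉ T0)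
    (hX : X = T0 ∪ Y) (hn : ∀ A ⊆ E, 0 ≤ sg r T0 A) (hFE : F ⊆ E) (hFt : sg r T0 F = 0)
    (hME : ∀ y ∈ Y, M y ⊆ E) (hMt : ∀ y ∈ Y, sg r T0 (M y) = 0) (hFM : ∀ y ∈ Y, F ⊆ M y)
    (hyM : ∀ y ∈ Y, y ∈ M y) (hyF : ∀ y ∈ Y, y ∉ F)
    (hint : ∀ y ∈ Y, ∀ y' ∈ Y, y ≠ y' → ∀ w ∈ M y, w ∈ M y' → w ∈ F)
    (hJ1 : ∀ y ∈ Y, J y ⊆ (M y \ F) \ X) (hJ2 : ∀ y ∈ Y, (J y).card + 1 + r F = r (M y))
    (hJ3 : ∀ y ∈ Y, r ((((M y \ F) \ X) \ J y) ∪ F) = r (M y)) {d d' : α → α}
    (hd1 : ∀ y ∈ Y, d y ∈ X) (hd2 : ∀ y ∈ Y, d y ∈ M y) (hd3 : ∀ y ∈ Y, r (insert (d y) (J y ∪ F)) = r (M y))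
    (he1 : ∀ y ∈ Y, d' y ∈ X) (he2 : ∀ y ∈ Y, d' y ∈ M y) (he3 : ∀ y ∈ Y, r (insert (d' y) (J y ∪ F)) = r (M y))
    (hB : Bs r f (X \ Y.image d)) (hB' : Bs r f (X \ Y.image d')) :
    Stp r E f (X \ Y.image d) (X \ Y.image d') := by
  have hr := hE.rk
  have hXE : X ⊆ E := by rw [hX]; exact union_subset hT hYE
  have hXT : ∀ w, w ∈ X ↔ w ∈ T0 ∨ w ∈ Y := by intro w; rw [hX, mem_union]
  obtain ⟨hGE, hGt⟩ := un_tight (Y := Y) (M := M) hr hn hFE hFt hME hMt
  set G : Finset α := Y.biUnion M ∪ F with hG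
  have hFG : F ⊆ G := subset_union_right
  have hMG : ∀ y ∈ Y, M y ⊆ G := fun y hy w hw => mem_union_left _ (mem_biUnion.2 ⟨y, hy, hw⟩)
  have hsgn : ∀ A ⊆ E, (A \ T0).card ≤ 2 * r A := by
    intro A hA
    have h1 := hn A hA
    unfold sg at h1
    omega
  -- counts
  have n0 := hE.card
  have n1 : X.card = f + Y.card := by
    rw [hX, card_union_of_disjoint, hTc]
    rw [disjoint_left]
    intro w hw hw'
    exact hYT w hw' hw
  have n2 := card_sdiff_add_card_eq_card hXE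
  have n3 : (G \ T0).card = (G \ X).card + Y.card := by
    rw [← card_union_of_disjoint]
    · congr 1
      ext w
      rw [mem_union, mem_sdiff, mem_sdiff, hXT, not_or]
      constructor
      · rintro ⟨h1, h2⟩
        by_cases h3 : w ∈ Y
        · exact Or.inr h3
        · exact Or.inl ⟨h1, h2, h3⟩
      · rintro (h1 | h1)
        · exact ⟨h1.1, h1.2.1⟩
        · exact ⟨hMG w h1 (hyM w h1), hYT w h1⟩
    · rw [disjoint_left]
      intro w hw hw'
      exact (mem_sdiff.1 hw).2 ((hXT w).2 (Or.inr hw'))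
  have n4 : (G \ T0).card = 2 * r G := by
    unfold sg at hGt
    omega
  have n5 : (F \ X).card = 2 * r F := by
    have h1 : F \ X = F \ T0 := by
      ext w
      rw [mem_sdiff, mem_sdiff, hXT, not_or]
      constructor
      · rintro ⟨h1, h2, -⟩
        exact ⟨h1, h2⟩
      · rintro ⟨h1, h2⟩
        exact ⟨h1, h2, fun h3 => hyF w h3 h1⟩
    rw [h1]
    unfold sg at hFt
    omega
  have hmem : ∀ y ∈ Y, ∀ w ∈ Y, w ∈ M y → w = y := by
    intro y hy w hw hwy
    by_contra hne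
    exact hyF w hw (hint y hy w hw (fun h => hne h.symm) w hwy (hyM w hw))
  have n6 : ∀ y ∈ Y, ((M y \ F) \ X).card + 1 + 2 * r F = 2 * r (M y) := by
    intro y hy
    have h1 : M y \ T0 = insert y (((M y \ F) \ X) ∪ (F \ X)) := by
      ext w
      simp only [mem_sdiff, mem_insert, mem_union, hXT, not_or]
      constructor
      · rintro ⟨h2, h3⟩
        by_cases h4 : w ∈ Y
        · exact Or.inl (hmem y hy w h4 h2)
        · by_cases h5 : w ∈ F
          · exact Or.inr (Or.inr ⟨h5, h3, h4⟩)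
          · exact Or.inr (Or.inl ⟨⟨h2, h5⟩, h3, h4⟩)
      · rintro (h2 | h2 | h2)
        · rw [h2]; exact ⟨hyM y hy, hYT y hy⟩
        · exact ⟨h2.1.1, h2.2.1⟩
        · exact ⟨hFM y hy h2.1, h2.2.1⟩
    have h2 : y ∉ ((M y \ F) \ X) ∪ (F \ X) := by
      intro h3
      have h4 : y ∈ X := (hXT y).2 (Or.inr hy)
      rcases mem_union.1 h3 with h3 | h3
      · exact (mem_sdiff.1 h3).2 h4
      · exact (mem_sdiff.1 h3).2 h4
    have h3 : Disjoint ((M y \ F) \ X) (F \ X) := by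
      rw [disjoint_left]
      intro w hw hw'
      exact (mem_sdiff.1 (mem_sdiff.1 hw).1).2 (mem_sdiff.1 hw').1
    have h4 := hMt y hy
    unfold sg at h4
    rw [h1, card_insert_of_notMem h2, card_union_of_disjoint h3, n5] at h4
    omega
  have hdisj : ∀ y ∈ Y, ∀ y' ∈ Y, y ≠ y' → Disjoint ((M y \ F) \ X) ((M y' \ F) \ X) := by
    intro y hy y' hy' hne
    rw [disjoint_left]
    intro w hw hw'
    have h1 := mem_sdiff.1 (mem_sdiff.1 hw).1
    exact h1.2 (hint y hy y' hy' hne w h1.1 (mem_sdiff.1 (mem_sdiff.1 hw').1).1)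
  have n7 : (G \ X).card = 2 * r F + ∑ y ∈ Y, ((M y \ F) \ X).card := by
    have h1 : G \ X = (F \ X) ∪ Y.biUnion (fun y => (M y \ F) \ X) := by
      ext w
      simp only [hG, mem_sdiff, mem_union, mem_biUnion]
      constructor
      · rintro ⟨⟨y, hy, h2⟩ | h2, h3⟩
        · by_cases h4 : w ∈ F
          · exact Or.inl ⟨h4, h3⟩
          · exact Or.inr ⟨y, hy, ⟨h2, h4⟩, h3⟩
        · exact Or.inl ⟨h2, h3⟩
      · rintro (⟨h2, h3⟩ | ⟨y, hy, ⟨h2, h4⟩, h3⟩)
        · exact ⟨Or.inr h2, h3⟩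
        · exact ⟨Or.inl ⟨y, hy, h2⟩, h3⟩
    rw [h1, card_union_of_disjoint, n5, card_biUnion]
    · intro y hy y' hy' hne
      exact hdisj y hy y' hy' hne
    · rw [disjoint_left]
      intro w hw hw'
      obtain ⟨y, hy, h2⟩ := mem_biUnion.1 hw'
      exact (mem_sdiff.1 (mem_sdiff.1 h2).1).2 (mem_sdiff.1 hw).1
  have n8 : (∑ y ∈ Y, ((M y \ F) \ X).card) + Y.card = 2 * ∑ y ∈ Y, (r (M y) - r F) := by
    rw [mul_sum, card_eq_sum_ones, ← sum_add_distrib]
    refine sum_congr rfl fun y hy => ?_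
    have h1 := n6 y hy
    have h2 := hr.mono F (M y) (hFM y hy)
    omega
  have n9 : (∑ y ∈ Y, (J y).card) + Y.card = ∑ y ∈ Y, (r (M y) - r F) := by
    rw [card_eq_sum_ones, ← sum_add_distrib]
    refine sum_congr rfl fun y hy => ?_
    have h1 := hJ2 y hy
    omega
  have n10 : (∑ y ∈ Y, ((((M y \ F) \ X)) \ J y).card) = ∑ y ∈ Y, (r (M y) - r F) := by
    refine sum_congr rfl fun y hy => ?_
    have h1 := hJ2 y hy
    have h2 := n6 y hy
    have h3 := card_sdiff_add_card_eq_card (hJ1 y hy)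
    omega
  set s : ℕ := ∑ y ∈ Y, (r (M y) - r F) with hs
  -- the rest
  set O : Finset α := (E \ X) \ G with hO
  have n11 : O.card + (G \ X).card = (E \ X).card := by
    have h1 := card_sdiff_add_card_inter (E \ X) G
    have h2 : (E \ X) ∩ G = G \ X := by
      ext w
      rw [mem_inter, mem_sdiff, mem_sdiff]
      constructor
      · rintro ⟨⟨-, h3⟩, h4⟩
        exact ⟨h4, h3⟩
      · rintro ⟨h3, h4⟩
        exact ⟨⟨hGE h3, h4⟩, h3⟩
    rw [h2] at h1
    exact h1
  have hGf : r G ≤ f := by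
    have h1 := hr.mono G E hGE
    rwa [hE.rank] at h1
  have hOE : O ⊆ E := sdiff_subset.trans sdiff_subset
  have hOT : ∀ A ⊆ O, A.card + 2 * r G ≤ 2 * r (A ∪ G) := by
    intro A hA
    have h1 := hsgn (A ∪ G) (union_subset (hA.trans hOE) hGE)
    have h2 : (A ∪ G) \ T0 = A ∪ (G \ T0) := by
      ext w
      simp only [mem_sdiff, mem_union]
      constructor
      · rintro ⟨h3 | h3, h4⟩
        · exact Or.inl h3
        · exact Or.inr ⟨h3, h4⟩
      · rintro (h3 | h3)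
        · refine ⟨Or.inl h3, fun h4 => ?_⟩
          exact (mem_sdiff.1 (mem_sdiff.1 (hA h3)).1).2 ((hXT w).2 (Or.inl h4))
        · exact ⟨Or.inr h3.1, h3.2⟩
    have h3 : Disjoint A (G \ T0) := by
      rw [disjoint_left]
      intro w hw hw'
      exact (mem_sdiff.1 (hA hw)).2 (mem_sdiff.1 hw').1
    rw [h2, card_union_of_disjoint h3, n4] at h1
    exact h1
  have hOr : r (O ∪ G) = f := by
    have h1 := hOT O (Subset.refl _)
    have h2 := hr.mono (O ∪ G) E (union_subset hOE hGE)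
    rw [hE.rank] at h2
    omega
  have hcr := contr_rank hr G
  obtain ⟨CO, hCO, o1, o2, o3, o4⟩ := split2 (Y := O) hcr hcr (by
      show O.card = r (O ∪ G) - r G + (r (O ∪ G) - r G)
      omega) (by
      intro A hA
      show A.card ≤ r (A ∪ G) - r G + (r (A ∪ G) - r G)
      have h1 := hOT A hA
      have h2 := hr.mono G (A ∪ G) subset_union_right
      omega)
  have o2' : r (CO ∪ G) - r G = r (O ∪ G) - r G := o2
  have o4' : r ((O \ CO) ∪ G) - r G = r (O ∪ G) - r G := o4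
  have o1' : CO.card = r (O ∪ G) - r G := o1
  have o3' : (O \ CO).card = r (O ∪ G) - r G := o3
  have o5 := hr.mono G (CO ∪ G) subset_union_right
  have o6 := hr.mono G ((O \ CO) ∪ G) subset_union_right
  -- the part inside `F`
  have hFXr : r (F \ X) = r F := by
    have h1 := hsgn (F \ X) (sdiff_subset.trans hFE)
    have h2 : (F \ X) \ T0 = F \ X := by
      rw [Finset.sdiff_eq_self_iff_disjoint, disjoint_left]
      intro w hw hw'
      exact (mem_sdiff.1 hw).2 ((hXT w).2 (Or.inl hw'))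
    have h3 := hr.mono (F \ X) F sdiff_subset
    rw [h2] at h1
    omega
  obtain ⟨CF, hCF, p1, p2, p3, p4⟩ := split2 (Y := F \ X) hr hr (by omega) (by
      intro A hA
      have h1 := hsgn A (hA.trans (sdiff_subset.trans hFE))
      have h2 : A \ T0 = A := by
        rw [Finset.sdiff_eq_self_iff_disjoint, disjoint_left]
        intro w hw hw'
        exact (mem_sdiff.1 (hA hw)).2 ((hXT w).2 (Or.inl hw'))
      rw [h2] at h1
      omega)
  rw [hFXr] at p1 p2 p3 p4
  -- the two parts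
  set R : Finset α := (((F \ X) \ CF) ∪ (O \ CO)) ∪ Y.biUnion (fun y => ((M y \ F) \ X) \ J y) with hR
  set K : Finset α := (CF ∪ CO) ∪ Y.biUnion J with hK
  have hCFm : ∀ w ∈ CF, w ∈ F ∧ w ∉ X := fun w hw => mem_sdiff.1 (hCF hw)
  have hCOm : ∀ w ∈ CO, w ∈ O := fun w hw => hCO hw
  have hOm : ∀ w ∈ O, w ∈ E ∧ w ∉ X ∧ w ∉ G := by
    intro w hw
    have h1 := mem_sdiff.1 hw
    exact ⟨(mem_sdiff.1 h1.1).1, (mem_sdiff.1 h1.1).2, h1.2⟩
  have hJm : ∀ y ∈ Y, ∀ w ∈ J y, w ∈ M y ∧ w ∉ F ∧ w ∉ X := by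
    intro y hy w hw
    have h1 := mem_sdiff.1 (hJ1 y hy hw)
    exact ⟨(mem_sdiff.1 h1.1).1, (mem_sdiff.1 h1.1).2, h1.2⟩
  have hRm : ∀ w, w ∈ R ↔ ((w ∈ F ∧ w ∉ X) ∧ w ∉ CF) ∨ (w ∈ O ∧ w ∉ CO) ∨
      ∃ y ∈ Y, ((w ∈ M y ∧ w ∉ F) ∧ w ∉ X) ∧ w ∉ J y := by
    intro w
    simp only [hR, mem_union, mem_sdiff, mem_biUnion]
    exact or_assoc
  have hKm : ∀ w, w ∈ K ↔ w ∈ CF ∨ w ∈ CO ∨ ∃ y ∈ Y, w ∈ J y := by
    intro w
    simp only [hK, mem_union, mem_biUnion]
    exact or_assoc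
  have hREX : ∀ w ∈ R, w ∈ E ∧ w ∉ X := by
    intro w hw
    rcases (hRm w).1 hw with h | h | ⟨y, hy, h⟩
    · exact ⟨hFE h.1.1, h.1.2⟩
    · exact ⟨(hOm w h.1).1, (hOm w h.1).2.1⟩
    · exact ⟨hME y hy h.1.1.1, h.1.2⟩
  have hKEX : ∀ w ∈ K, w ∈ E ∧ w ∉ X := by
    intro w hw
    rcases (hKm w).1 hw with h | h | ⟨y, hy, h⟩
    · exact ⟨hFE (hCFm w h).1, (hCFm w h).2⟩
    · exact ⟨(hOm w (hCOm w h)).1, (hOm w (hCOm w h)).2.1⟩
    · exact ⟨hME y hy (hJm y hy w h).1, (hJm y hy w h).2.2⟩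
  have hRK : ∀ w ∈ R, w ∉ K := by
    intro w hw hw'
    rcases (hRm w).1 hw with h | h | ⟨y, hy, h⟩
    · rcases (hKm w).1 hw' with h' | h' | ⟨y', hy', h'⟩
      · exact h.2 h'
      · exact (hOm w (hCOm w h')).2.2 (hFG h.1.1)
      · exact (hJm y' hy' w h').2.1 h.1.1
    · rcases (hKm w).1 hw' with h' | h' | ⟨y', hy', h'⟩
      · exact (hOm w h.1).2.2 (hFG (hCFm w h').1)
      · exact h.2 h'
      · exact (hOm w h.1).2.2 (hMG y' hy' (hJm y' hy' w h').1)
    · rcases (hKm w).1 hw' with h' | h' | ⟨y', hy', h'⟩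
      · exact h.1.1.2 (hCFm w h').1
      · exact (hOm w (hCOm w h')).2.2 (hMG y hy h.1.1.1)
      · by_cases hyy : y = y'
        · subst hyy
          exact h.2 h'
        · exact h.1.1.2 (hint y hy y' hy' hyy w h.1.1.1 (hJm y' hy' w h').1)
  have hcov : ∀ w, w ∈ E → w ∉ X → w ∈ R ∨ w ∈ K := by
    intro w hwE hwX
    by_cases hwG : w ∈ G
    · by_cases hwF : w ∈ F
      · by_cases h1 : w ∈ CF
        · exact Or.inr ((hKm w).2 (Or.inl h1))
        · exact Or.inl ((hRm w).2 (Or.inl ⟨⟨hwF, hwX⟩, h1⟩))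
      · rcases mem_union.1 hwG with h1 | h1
        · obtain ⟨y, hy, h2⟩ := mem_biUnion.1 h1
          by_cases h3 : w ∈ J y
          · exact Or.inr ((hKm w).2 (Or.inr (Or.inr ⟨y, hy, h3⟩)))
          · exact Or.inl ((hRm w).2 (Or.inr (Or.inr ⟨y, hy, ⟨⟨h2, hwF⟩, hwX⟩, h3⟩)))
        · exact absurd h1 hwF
    · have h1 : w ∈ O := mem_sdiff.2 ⟨mem_sdiff.2 ⟨hwE, hwX⟩, hwG⟩
      by_cases h2 : w ∈ CO
      · exact Or.inr ((hKm w).2 (Or.inr (Or.inl h2)))
      · exact Or.inl ((hRm w).2 (Or.inr (Or.inl ⟨h1, h2⟩)))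
  -- cardinalities
  have cR : R.card = f := by
    have d1 : Disjoint ((F \ X) \ CF) (O \ CO) := by
      rw [disjoint_left]
      intro w hw hw'
      exact (hOm w (mem_sdiff.1 hw').1).2.2 (hFG (mem_sdiff.1 (mem_sdiff.1 hw).1).1)
    have d2 : Disjoint (((F \ X) \ CF) ∪ (O \ CO)) (Y.biUnion (fun y => ((M y \ F) \ X) \ J y)) := by
      rw [disjoint_left]
      intro w hw hw'
      obtain ⟨y, hy, h1⟩ := mem_biUnion.1 hw'
      have h2 := mem_sdiff.1 (mem_sdiff.1 (mem_sdiff.1 h1).1).1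
      rcases mem_union.1 hw with h3 | h3
      · exact h2.2 (mem_sdiff.1 (mem_sdiff.1 h3).1).1
      · exact (hOm w (mem_sdiff.1 h3).1).2.2 (hMG y hy h2.1)
    rw [hR, card_union_of_disjoint d2, card_union_of_disjoint d1, card_biUnion]
    · rw [n10, p3, o3']
      omega
    · intro y hy y' hy' hne
      exact disjoint_of_subset_left sdiff_subset (disjoint_of_subset_right sdiff_subset (hdisj y hy y' hy' hne))
  have cK : K.card + Y.card = f := by
    have h1 : (R ∪ K).card = R.card + K.card := by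
      rw [card_union_of_disjoint]
      rw [disjoint_left]
      exact hRK
    have h2 : R ∪ K = E \ X := by
      ext w
      rw [mem_union, mem_sdiff]
      constructor
      · rintro (h3 | h3)
        · exact hREX w h3
        · exact hKEX w h3
      · rintro ⟨h3, h4⟩
        exact hcov w h3 h4
    rw [h2] at h1
    omega
  -- ranks
  have hrE : ∀ A ⊆ E, r A ≤ f := by
    intro A hA
    have h1 := hr.mono A E hA
    rwa [hE.rank] at h1
  have rR : r R = f := by
    have h1 := spanW (f := f) (W := R) (B := (F \ X) \ CF) (C := O \ CO) (F := F) (Y := Y) (M := M)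
      (U := fun y => ((M y \ F) \ X) \ J y) hr
      (subset_union_left.trans subset_union_left) (sdiff_subset.trans sdiff_subset) p4
      (fun y hy w hw => mem_union_right _ (mem_biUnion.2 ⟨y, hy, hw⟩))
      (fun y hy => sdiff_subset.trans (sdiff_subset.trans sdiff_subset)) hFM hJ3
      (subset_union_right.trans subset_union_left) (by rw [← hG]; omega)
    have h2 := hrE R (fun w hw => (hREX w hw).1)
    omega
  have key : ∀ e : α → α, (∀ y ∈ Y, e y ∈ X) → (∀ y ∈ Y, e y ∈ M y) →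
      (∀ y ∈ Y, r (insert (e y) (J y ∪ F)) = r (M y)) →
      Disjoint (X \ Y.image e) R ∧ Bs r f (E \ (X \ Y.image e ∪ R)) := by
    intro e e1 e2 e3
    refine ⟨?_, ?_⟩
    · rw [disjoint_left]
      intro w hw hw'
      exact (hREX w hw').2 (mem_sdiff.1 hw).1
    · have h1 : E \ (X \ Y.image e ∪ R) = K ∪ Y.image e := by
        ext w
        simp only [mem_sdiff, mem_union, not_or, not_and, not_not]
        constructor
        · rintro ⟨h2, h3, h4⟩
          by_cases h5 : w ∈ X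
          · exact Or.inr (h3 h5)
          · rcases hcov w h2 h5 with h6 | h6
            · exact absurd h6 h4
            · exact Or.inl h6
        · rintro (h2 | h2)
          · refine ⟨(hKEX w h2).1, fun h3 => absurd h3 (hKEX w h2).2, fun h3 => hRK w h3 h2⟩
          · obtain ⟨y, hy, rfl⟩ := mem_image.1 h2
            exact ⟨hXE (e1 y hy), fun _ => h2, fun h3 => (hREX _ h3).2 (e1 y hy)⟩
      have h2 : f ≤ r (K ∪ Y.image e) := by
        refine spanW (f := f) (W := K ∪ Y.image e) (B := CF) (C := CO) (F := F) (Y := Y) (M := M)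
          (U := fun y => insert (e y) (J y)) hr
          ((subset_union_left.trans subset_union_left).trans subset_union_left)
          (fun w hw => (hCFm w hw).1) p2 ?_ ?_ hFM ?_
          ((subset_union_right.trans subset_union_left).trans subset_union_left) (by rw [← hG]; omega)
        · intro y hy w hw
          rcases mem_insert.1 hw with h3 | h3
          · exact mem_union_right _ (mem_image.2 ⟨y, hy, h3.symm⟩)
          · exact mem_union_left _ (mem_union_right _ (mem_biUnion.2 ⟨y, hy, h3⟩))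
        · intro y hy w hw
          rcases mem_insert.1 hw with h3 | h3
          · rw [h3]; exact e2 y hy
          · exact (hJm y hy w h3).1
        · intro y hy
          show r (insert (e y) (J y) ∪ F) = r (M y)
          rw [insert_union]
          exact e3 y hy
      have h3 := card_union_le K (Y.image e)
      have h4 : (Y.image e).card ≤ Y.card := card_image_le
      have h5 := hr.le_card (K ∪ Y.image e)
      rw [h1]
      refine ⟨by omega, by omega⟩
  obtain ⟨k1, k2⟩ := key d hd1 hd2 hd3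
  obtain ⟨l1, l2⟩ := key d' he1 he2 he3
  exact ⟨sdiff_subset.trans hXE, sdiff_subset.trans hXE, hB, hB', R, fun w hw => (hREX w hw).1, k1, l1, ⟨cR, rR⟩, k2, l2⟩

end Pool.Agent.SA65
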