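import Pool.Agent.EX84.K2C
import Pool.Agent.SA65.A
import Pool.Agent.SA65.B
import Pool.Agent.SA65.Defs

/-!
THEOREM SADJ (note 2982 of MP_e6151a_ag), part three: a closest pair at distance at least two has a completely non-adjacent factor.
-/

set_option autoImplicit false

namespace Pool.Agent.SA65

open Finset Pool.Agent.DT3 Pool.Agent.CF98 Pool.Agent.WT59 Pool.Agent.EX84

variable {α : Type*} [DecidableEq α] {r : Finset α → ℕ} {E T0 T1 : Finset α} {f : ℕ}
  {Q : Finset α → Prop}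

/-- The common part of the sets `H y`, `y ∈ J`. -/
def cap (E : Finset α) (H : α → Finset α) (J : Finset α) : Finset α := E.filter fun w => ∀ y ∈ J, w ∈ H y

theorem mem_cap {H : α → Finset α} {J : Finset α} {w : α} : w ∈ cap E H J ↔ w ∈ E ∧ ∀ y ∈ J, w ∈ H y :=
  mem_filter

theorem cap_ti (hE : Env r E f) (hg : Gd r E f T0) {H : α → Finset α} (J : Finset α) (hH : ∀ y ∈ J, H y ⊆ E)
    (ht : ∀ y ∈ J, sg r T0 (H y) = 0) : sg r T0 (cap E H J) = 0 := by
  induction J using Finset.induction_on with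
  | empty =>
    have h1 : cap E H ∅ = E := by
      ext w
      rw [mem_cap]
      exact ⟨fun h => h.1, fun h => ⟨h, fun y hy => absurd hy (notMem_empty y)⟩⟩
    rw [h1]
    exact sg_E hE hg
  | insert a J ha ih =>
    have h1 := ih (fun y hy => hH y (mem_insert_of_mem hy)) (fun y hy => ht y (mem_insert_of_mem hy))
    have h2 : cap E H (insert a J) = H a ∩ cap E H J := by
      ext w
      rw [mem_cap, mem_inter, mem_cap]
      constructor
      · rintro ⟨h3, h4⟩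
        exact ⟨h4 a (mem_insert_self a J), h3, fun y hy => h4 y (mem_insert_of_mem hy)⟩
      · rintro ⟨h3, h4, h5⟩
        refine ⟨h4, fun y hy => ?_⟩
        rcases mem_insert.1 hy with h6 | h6
        · rw [h6]; exact h3
        · exact h5 y h6
    rw [h2]
    exact (ti_mod hE.rk (sg_nonneg hE.rk hg.2.2) (hH a (mem_insert_self a J)) (filter_subset _ _)
      (ht a (mem_insert_self a J)) h1).2.2

/-- A closest pair at distance at least two has a completely non-adjacent factor. -/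
theorem k2na (hE : Env r E f) (hQ : ∀ A A', Stp r E f A A' → Q A → Q A') (hc : Clo r E f Q T0 T1)
    (hk : 2 ≤ (T0 \ T1).card) : ∃ F M S K1 K2, NAP r E F M S K1 K2 := by
  classical
  by_contra hno
  have hr := hE.rk
  have hn := sg_nonneg hE.rk hc.g0.2.2
  obtain ⟨m, c, H, hm⟩ := em hE Q T0 T1 hc
  obtain ⟨ms, cs, Hs, hms⟩ := em hE _ T1 T0 hc.swap
  have hks : 2 ≤ (T1 \ T0).card := by rw [← hc.card_eq]; exact hk
  set Y : Finset α := T1 \ T0 with hY
  set X : Finset α := T0 ∪ T1 with hX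
  have hXY : X = T0 ∪ Y := by rw [hX, hY, union_sdiff_self_eq_union]
  have hXm : ∀ w, w ∈ X ↔ w ∈ T0 ∨ w ∈ Y := by intro w; rw [hXY, mem_union]
  have hYT1 : ∀ y ∈ Y, y ∈ T1 := fun y hy => (mem_sdiff.1 hy).1
  have hYT0 : ∀ y ∈ Y, y ∉ T0 := fun y hy => (mem_sdiff.1 hy).2
  have hYE : Y ⊆ E := fun y hy => hc.g1.1 (hYT1 y hy)
  set F : Finset α := cap E H Y with hF
  have hFE : F ⊆ E := filter_subset _ _
  have hFt : sg r T0 F = 0 := cap_ti hE hc.g0 Y hm.hE hm.t0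
  have hyF : ∀ y ∈ Y, y ∉ F := fun y hy h => hm.n0 y hy ((mem_cap.1 h).2 y hy)
  have hMt : ∀ y ∈ Y, sg r T0 (cap E H (Y.erase y)) = 0 := fun y hy =>
    cap_ti hE hc.g0 (Y.erase y) (fun z hz => hm.hE z (mem_of_mem_erase hz)) (fun z hz => hm.t0 z (mem_of_mem_erase hz))
  have hME : ∀ y, cap E H (Y.erase y) ⊆ E := fun y => filter_subset _ _
  have hFM : ∀ y, F ⊆ cap E H (Y.erase y) := by
    intro y w hw
    have h1 := mem_cap.1 hw
    exact mem_cap.2 ⟨h1.1, fun z hz => h1.2 z (mem_of_mem_erase hz)⟩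
  have hyM : ∀ y ∈ Y, y ∈ cap E H (Y.erase y) := by
    intro y hy
    refine mem_cap.2 ⟨hYE hy, fun z hz => ?_⟩
    have h1 := mem_erase.1 hz
    exact hm.in1 z h1.2 (mem_erase.2 ⟨h1.1.symm, hy⟩)
  have hMH : ∀ y ∈ Y, cap E H (Y.erase y) ∩ H y = F := by
    intro y hy
    ext w
    rw [mem_inter, mem_cap, hF, mem_cap]
    constructor
    · rintro ⟨⟨h1, h2⟩, h3⟩
      refine ⟨h1, fun z hz => ?_⟩
      by_cases hzy : z = y
      · rw [hzy]; exact h3
      · exact h2 z (mem_erase.2 ⟨hzy, hz⟩)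
    · rintro ⟨h1, h2⟩
      exact ⟨⟨h1, fun z hz => h2 z (mem_of_mem_erase hz)⟩, h2 y hy⟩
  have hint : ∀ y ∈ Y, ∀ y' ∈ Y, y ≠ y' → ∀ w ∈ cap E H (Y.erase y), w ∈ cap E H (Y.erase y') → w ∈ F := by
    intro y hy y' hy' hne w hw hw'
    refine mem_cap.2 ⟨(mem_cap.1 hw).1, fun z hz => ?_⟩
    by_cases hzy : z = y
    · rw [hzy]
      exact (mem_cap.1 hw').2 y (mem_erase.2 ⟨hne, hy⟩)
    · exact (mem_cap.1 hw).2 z (mem_erase.2 ⟨hzy, hz⟩)
  have hFH : ∀ y ∈ Y, F ⊆ H y := fun y hy w hw => (mem_cap.1 hw).2 y hy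
  -- counts
  have hFX : F \ X = F \ T0 := by
    ext w
    rw [mem_sdiff, mem_sdiff, hXm, not_or]
    constructor
    · rintro ⟨h1, h2, -⟩
      exact ⟨h1, h2⟩
    · rintro ⟨h1, h2⟩
      exact ⟨h1, h2, fun h3 => hyF w h3 h1⟩
  have hFc : (F \ X).card = 2 * r F := by
    rw [hFX]
    unfold sg at hFt
    omega
  have hmem : ∀ y ∈ Y, ∀ w ∈ Y, w ∈ cap E H (Y.erase y) → w = y := by
    intro y hy w hw hwy
    by_contra hne
    exact hyF w hw (hint y hy w hw (fun h => hne h.symm) w hwy (hyM w hw))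
  have hSc : ∀ y ∈ Y, ((cap E H (Y.erase y) \ F) \ X).card + 1 + 2 * r F = 2 * r (cap E H (Y.erase y)) := by
    intro y hy
    have h1 : cap E H (Y.erase y) \ T0 = insert y (((cap E H (Y.erase y) \ F) \ X) ∪ (F \ X)) := by
      ext w
      simp only [mem_sdiff, mem_insert, mem_union, hXm, not_or]
      constructor
      · rintro ⟨h2, h3⟩
        by_cases h4 : w ∈ Y
        · exact Or.inl (hmem y hy w h4 h2)
        · by_cases h5 : w ∈ F
          · exact Or.inr (Or.inr ⟨h5, h3, h4⟩)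
          · exact Or.inr (Or.inl ⟨⟨h2, h5⟩, h3, h4⟩)
      · rintro (h2 | h2 | h2)
        · rw [h2]; exact ⟨hyM y hy, hYT0 y hy⟩
        · exact ⟨h2.1.1, h2.2.1⟩
        · exact ⟨hFM y h2.1, h2.2.1⟩
    have h2 : y ∉ ((cap E H (Y.erase y) \ F) \ X) ∪ (F \ X) := by
      intro h3
      have h4 : y ∈ X := (hXm y).2 (Or.inr hy)
      rcases mem_union.1 h3 with h3 | h3
      · exact (mem_sdiff.1 h3).2 h4
      · exact (mem_sdiff.1 h3).2 h4
    have h3 : Disjoint ((cap E H (Y.erase y) \ F) \ X) (F \ X) := by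
      rw [disjoint_left]
      intro w hw hw'
      exact (mem_sdiff.1 (mem_sdiff.1 hw).1).2 (mem_sdiff.1 hw').1
    have h4 := hMt y hy
    unfold sg at h4
    rw [h1, card_insert_of_notMem h2, card_union_of_disjoint h3, hFc] at h4
    omega
  have hrig : ∀ y ∈ Y, ∀ A ⊆ (cap E H (Y.erase y) \ F) \ X, A.Nonempty → A.card + 1 + 2 * r F ≤ 2 * r (A ∪ F) := by
    intro y hy A hA hAn
    have hAX : ∀ w ∈ A, w ∉ X := fun w hw => (mem_sdiff.1 (hA hw)).2
    have hAF : ∀ w ∈ A, w ∉ F := fun w hw => (mem_sdiff.1 (mem_sdiff.1 (hA hw)).1).2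
    by_contra hcon
    have hAE : A ∪ F ⊆ E := union_subset (hA.trans (sdiff_subset.trans (sdiff_subset.trans (hME y)))) hFE
    have h1 := hn (A ∪ F) hAE
    have h2 : (A ∪ F) \ T0 = A ∪ (F \ X) := by
      rw [hFX]
      ext w
      rw [mem_sdiff, mem_union, mem_union, mem_sdiff]
      constructor
      · rintro ⟨h3 | h3, h4⟩
        · exact Or.inl h3
        · exact Or.inr ⟨h3, h4⟩
      · rintro (h3 | h3)
        · exact ⟨Or.inl h3, fun h4 => hAX w h3 ((hXm w).2 (Or.inl h4))⟩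
        · exact ⟨Or.inr h3.1, h3.2⟩
    have h3 : ((A ∪ F) \ T0).card = A.card + 2 * r F := by
      rw [h2, card_union_of_disjoint, hFc]
      rw [disjoint_left]
      intro w hw hw'
      exact hAF w hw (mem_sdiff.1 hw').1
    have h4 : sg r T0 (A ∪ F) = 0 := by
      unfold sg at h1 ⊢
      rw [h3] at h1 ⊢
      omega
    have h5 : ∀ z ∈ Y, z ∉ A ∪ F := by
      intro z hz h6
      rcases mem_union.1 h6 with h6 | h6
      · exact hAX z h6 ((hXm z).2 (Or.inr hz))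
      · exact hyF z hz h6
    obtain ⟨a, ha⟩ := hAn
    refine hAF a ha (mem_cap.2 ⟨hAE (mem_union_left _ ha), fun z hz => ?_⟩)
    exact hm.x0 z hz _ hAE h4 (h5 z hz) (mem_union_left _ ha)
  -- the two sets of tokens
  have hHs : ∀ y ∈ Y, Hs (m y) = H y := fun y hy => TG.uniq (hms.tg (hm.mp y hy)) (hm.tg1 hy)
  have k1 : ∀ y ∈ Y, DD r f T0 H y ⊆ cap E H (Y.erase y) := by
    intro y hy w hw
    have hwE : w ∈ E := by
      rcases mem_union.1 (DD.sub hE hc hy hw) with h | h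
      · exact hc.g0.1 h
      · exact hc.g1.1 h
    refine mem_cap.2 ⟨hwE, fun z hz => ?_⟩
    have hz' := mem_erase.1 hz
    exact dsub hE (em hE) hc hm hk hy hz'.2 hz'.1 hw
  have k2 : ∀ y ∈ Y, DD r f T1 Hs (m y) ⊆ cap E H (Y.erase y) := by
    intro y hy w hw
    have hwE : w ∈ E := by
      rcases mem_union.1 (DD.sub hE hc.swap (hm.mp y hy) hw) with h | h
      · exact hc.g1.1 h
      · exact hc.g0.1 h
    refine mem_cap.2 ⟨hwE, fun z hz => ?_⟩
    have hz' := mem_erase.1 hz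
    rw [← hHs z hz'.2]
    exact dsub hE (em hE) hc.swap hms hks (hm.mp y hy) (hm.mp z hz'.2)
      (fun h => hz'.1 (hm.mi hz'.2 hy h)) hw
  have x1 : ∀ y ∈ Y, ∀ w ∈ DD r f T0 H y, w ∈ X := fun y hy w hw => DD.sub hE hc hy hw
  have x2 : ∀ y ∈ Y, ∀ w ∈ DD r f T1 Hs (m y), w ∈ X := by
    intro y hy w hw
    have h1 := DD.sub (H := Hs) hE hc.swap (hm.mp y hy) hw
    rw [hX, union_comm]
    exact h1
  -- adjacency in all factors
  have hadj : ∀ y ∈ Y, ∃ J ⊆ (cap E H (Y.erase y) \ F) \ X, J.card + 1 + r F = r (cap E H (Y.erase y)) ∧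
      r ((((cap E H (Y.erase y) \ F) \ X) \ J) ∪ F) = r (cap E H (Y.erase y)) ∧
      (∃ x ∈ DD r f T0 H y, r (insert x (J ∪ F)) = r (cap E H (Y.erase y))) ∧
      (∃ x ∈ DD r f T1 Hs (m y), r (insert x (J ∪ F)) = r (cap E H (Y.erase y))) := by
    intro y hy
    by_contra hJ
    set M : Finset α := cap E H (Y.erase y) with hM
    set S : Finset α := (M \ F) \ X with hS
    have hSF : Disjoint S F := by
      rw [disjoint_left]
      intro w hw hw'
      exact (mem_sdiff.1 (mem_sdiff.1 hw).1).2 hw'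
    have hSM : S ⊆ M := sdiff_subset.trans sdiff_subset
    have hd1 : Disjoint (DD r f T0 H y) S := by
      rw [disjoint_left]
      intro w hw hw'
      exact (mem_sdiff.1 hw').2 (x1 y hy w hw)
    have hd2 : Disjoint (DD r f T1 Hs (m y)) S := by
      rw [disjoint_left]
      intro w hw hw'
      exact (mem_sdiff.1 hw').2 (x2 y hy w hw)
    have hl : ∀ x ∈ DD r f T0 H y ∪ DD r f T1 Hs (m y), r (insert x F) ≠ r F := by
      intro x hx
      rcases mem_union.1 hx with hx | hx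
      · exact DD.nl hE hc hm hy (hFH y hy) x hx
      · exact DD.nl hE hc.swap hms (hm.mp y hy) (by rw [hHs y hy]; exact hFH y hy) x hx
    have hmod : r M + r (H y) = r (M ∪ H y) + r (M ∩ H y) :=
      (ti_mod hr hn (hME y) (hm.hE y hy) (hMt y hy) (hm.t0 y hy)).1
    have col1 : ∀ x ∈ DD r f T0 H y, r (F ∪ (DD r f T0 H y).erase x) = r (F ∪ DD r f T0 H y) := by
      have h1 := DD.col (H := H) (U := M) hE hc hy (k1 y hy) hmod
      rw [hMH y hy] at h1
      exact h1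
    have col2 : ∀ x ∈ DD r f T1 Hs (m y), r (F ∪ (DD r f T1 Hs (m y)).erase x) = r (F ∪ DD r f T1 Hs (m y)) := by
      have h1 := DD.col (H := Hs) (U := M) hE hc.swap (hm.mp y hy) (k2 y hy) (by rw [hHs y hy]; exact hmod)
      rw [hHs y hy, hMH y hy] at h1
      exact h1
    have hrk : ∀ Z ⊆ S ∪ F ∪ (DD r f T0 H y ∪ DD r f T1 Hs (m y)), r Z ≤ r M := by
      intro Z hZ
      exact hr.mono Z M (hZ.trans (union_subset (union_subset hSM (hFM y)) (union_subset (k1 y hy) (k2 y hy))))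
    rcases adjF (r := r) (S := S) (F := F) (K1 := DD r f T0 H y) (K2 := DD r f T1 Hs (m y)) (g := r M)
      hr hSF hd1 hd2 (DD.ne hm hy) (DD.ne hms (hm.mp y hy)) hl (hSc y hy) (hrig y hy) hrk with
      ⟨J, h1, h2, -, h4, h5, h6⟩ | ⟨h1, h2⟩
    · exact hJ ⟨J, h1, h2, h4, h5, h6⟩
    · refine hno ⟨F, M, S, DD r f T0 H y, DD r f T1 Hs (m y), ?_⟩
      refine ⟨hME y, hFM y, hSM, hSF, k1 y hy, k2 y hy, hd1, hd2, DD.ne hm hy, DD.ne hms (hm.mp y hy), hl,
        DD.simple hE hc hm hk hy, DD.simple hE hc.swap hms hks (hm.mp y hy), col1, col2, hSc y hy, hrig y hy,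
        ?_, h1, h2⟩
      intro J hJS hJc hJ3
      by_contra hcon
      rw [not_or] at hcon
      obtain ⟨h3, h4⟩ := hcon
      push Not at h3 h4
      exact hJ ⟨J, hJS, hJc, hJ3, h3, h4⟩
  have hch : ∀ y : α, ∃ (J : Finset α) (d d' : α), y ∈ Y → (J ⊆ (cap E H (Y.erase y) \ F) \ X ∧
      J.card + 1 + r F = r (cap E H (Y.erase y)) ∧
      r ((((cap E H (Y.erase y) \ F) \ X) \ J) ∪ F) = r (cap E H (Y.erase y)) ∧
      d ∈ DD r f T0 H y ∧ r (insert d (J ∪ F)) = r (cap E H (Y.erase y)) ∧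
      d' ∈ DD r f T1 Hs (m y) ∧ r (insert d' (J ∪ F)) = r (cap E H (Y.erase y))) := by
    intro y
    by_cases hy : y ∈ Y
    · obtain ⟨J, h1, h2, h3, ⟨x, h4, h5⟩, ⟨x', h6, h7⟩⟩ := hadj y hy
      exact ⟨J, x, x', fun _ => ⟨h1, h2, h3, h4, h5, h6, h7⟩⟩
    · exact ⟨∅, y, y, fun h => absurd h hy⟩
  choose J d d' hJ using hch
  -- the colour on the two sides
  obtain ⟨g1, g2⟩ := multi_all hE hc hm hk d (fun y hy => (hJ y hy).2.2.2.1)
  have hsurj : ∀ x : α, ∃ y, x ∈ T0 \ T1 → y ∈ Y ∧ m y = x := by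
    intro x
    by_cases hx : x ∈ T0 \ T1
    · obtain ⟨y, hy, hyx⟩ := hm.surj hc hx
      exact ⟨y, fun _ => ⟨hy, hyx⟩⟩
    · exact ⟨x, fun h => absurd h hx⟩
  choose n hn' using hsurj
  obtain ⟨g3, g4⟩ := multi_all hE hc.swap hms hks (fun x => d' (n x)) (by
    intro x hx
    obtain ⟨h1, h2⟩ := hn' x hx
    have h3 := (hJ (n x) h1).2.2.2.2.2.1
    rw [h2] at h3
    exact h3)
  have himg : (T0 \ T1).image (fun x => d' (n x)) = Y.image d' := by
    ext w
    rw [mem_image, mem_image]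
    constructor
    · rintro ⟨x, hx, rfl⟩
      exact ⟨n x, (hn' x hx).1, rfl⟩
    · rintro ⟨y, hy, rfl⟩
      refine ⟨m y, hm.mp y hy, ?_⟩
      obtain ⟨h1, h2⟩ := hn' (m y) (hm.mp y hy)
      show d' (n (m y)) = d' y
      rw [hm.mi h1 hy h2]
  rw [himg, union_comm T1 T0] at g3 g4
  have hst := glue (Y := Y) (M := fun y => cap E H (Y.erase y)) (J := J) (d := d) (d' := d') hE hc.g0.1 hc.g0.2.1.1 hYE hYT0
    hXY hn hFE hFt (fun y _ => hME y) hMt (fun y _ => hFM y) hyM hyF hint (fun y hy => (hJ y hy).1)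
    (fun y hy => (hJ y hy).2.1) (fun y hy => (hJ y hy).2.2.1)
    (fun y hy => x1 y hy _ (hJ y hy).2.2.2.1) (fun y hy => k1 y hy (hJ y hy).2.2.2.1)
    (fun y hy => (hJ y hy).2.2.2.2.1)
    (fun y hy => x2 y hy _ (hJ y hy).2.2.2.2.2.1) (fun y hy => k2 y hy (hJ y hy).2.2.2.2.2.1)
    (fun y hy => (hJ y hy).2.2.2.2.2.2) g1.2.1 g3.2.1
  exact g4 (hQ _ _ hst g2)

end Pool.Agent.SA65
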