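import Pool.Agent.SA65.D

/-!
THEOREM SADJ (note 2982 of MP_e6151a_ag), with the additional information that the two completely non-adjacent sets are independent;
so the flat `F` over which they have no coloops has positive rank.

* `nai_of` : two good bases of different colours give independent completely non-adjacent sets.
* `rF_pos` : `0 < r F`.
-/

set_option autoImplicit false

namespace Pool.Agent.SA65

open Finset Pool.Agent.DT3 Pool.Agent.CF98 Pool.Agent.WT59 Pool.Agent.EX84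

section

variable {α : Type*} [DecidableEq α] {r : Finset α → ℕ} {E T0 T1 : Finset α} {f : ℕ}
  {Q : Finset α → Prop}

theorem DD.ind {m c : α → α} {H : α → Finset α} {y : α} (hE : Env r E f) (hc : Clo r E f Q T0 T1)
    (hm : EM r E f T0 T1 m c H) (hk : 2 ≤ (T0 \ T1).card) (hy : y ∈ T1 \ T0) :
    r (DD r f T0 H y) = (DD r f T0 H y).card := by
  have hcy := hm.cp y hy
  have hcH : c y ∈ H y := hm.in0 y hy (mem_erase.2 ⟨hm.ne hk y hy, hcy⟩)
  have hb : r (insert y (T0.erase (c y))) = f := (hm.c0 y hy (c y) hcy).2 rfl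
  have hyT : y ∉ T0 := (mem_sdiff.1 hy).2
  have hcT : c y ∈ T0 := (mem_sdiff.1 hcy).1
  have hcard : (insert y (T0.erase (c y))).card = f := by
    have h0 := card_pos.2 ⟨c y, hcT⟩
    rw [card_insert_of_notMem (fun h => hyT (mem_of_mem_erase h)), card_erase_of_mem hcT]
    have h1 := hc.g0.2.1.1
    omega
  refine ind_sub hE.rk (by rw [hb, hcard]) ?_
  intro w hw
  have hw' := mem_sdiff.1 hw
  have h1 : w ∈ insert y T0 := fc_sub hw'.1
  rcases mem_insert.1 h1 with h | h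
  · rw [h]
    exact mem_insert_self _ _
  · exact mem_insert_of_mem (mem_erase.2 ⟨fun e => hw'.2 (e ▸ hcH), h⟩)

/-- A closest pair at distance at least two has a completely non-adjacent factor. -/
theorem k2nai (hE : Env r E f) (hQ : ∀ A A', Stp r E f A A' → Q A → Q A') (hc : Clo r E f Q T0 T1)
    (hk : 2 ≤ (T0 \ T1).card) : ∃ F M S K1 K2, NAP r E F M S K1 K2 ∧ r K1 = K1.card ∧
      r K2 = K2.card := by
  classical
  by_contra hno
  have hr := hE.rk
  have hn := sg_nonneg hE.rk hc.g0.2.2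
  obtain ⟨m, c, H, hm⟩ := em hE Q T0 T1 hc
  obtain ⟨ms, cs, Hs, hms⟩ := em hE _ T1 T0 hc.swap
  have hks : 2 ≤ (T1 \ T0).card := by rw [← hc.card_eq]; exact hk
  set Y : Finset α := T1 \ T0 with hY
  set X : Finset α := T0 ∪ T1 with hX
  have hXY : X = T0 ∪ Y := by rw [hX, hY, union_sdiff_self_eq_union]
  have hXm : ∀ w, w ∈ X ↔ w ∈ T0 ∨ w ∈ Y := by intro w; rw [hXY, mem_union]
  have hYT1 : ∀ y ∈ Y, y ∈ T1 := fun y hy => (mem_sdiff.1 hy).1
  have hYT0 : ∀ y ∈ Y, y ∉ T0 := fun y hy => (mem_sdiff.1 hy).2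
  have hYE : Y ⊆ E := fun y hy => hc.g1.1 (hYT1 y hy)
  set F : Finset α := cap E H Y with hF
  have hFE : F ⊆ E := filter_subset _ _
  have hFt : sg r T0 F = 0 := cap_ti hE hc.g0 Y hm.hE hm.t0
  have hyF : ∀ y ∈ Y, y ∉ F := fun y hy h => hm.n0 y hy ((mem_cap.1 h).2 y hy)
  have hMt : ∀ y ∈ Y, sg r T0 (cap E H (Y.erase y)) = 0 := fun y hy =>
    cap_ti hE hc.g0 (Y.erase y) (fun z hz => hm.hE z (mem_of_mem_erase hz)) (fun z hz => hm.t0 z (mem_of_mem_erase hz))
  have hME : ∀ y, cap E H (Y.erase y) ⊆ E := fun y => filter_subset _ _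
  have hFM : ∀ y, F ⊆ cap E H (Y.erase y) := by
    intro y w hw
    have h1 := mem_cap.1 hw
    exact mem_cap.2 ⟨h1.1, fun z hz => h1.2 z (mem_of_mem_erase hz)⟩
  have hyM : ∀ y ∈ Y, y ∈ cap E H (Y.erase y) := by
    intro y hy
    refine mem_cap.2 ⟨hYE hy, fun z hz => ?_⟩
    have h1 := mem_erase.1 hz
    exact hm.in1 z h1.2 (mem_erase.2 ⟨h1.1.symm, hy⟩)
  have hMH : ∀ y ∈ Y, cap E H (Y.erase y) ∩ H y = F := by
    intro y hy
    ext w
    rw [mem_inter, mem_cap, hF, mem_cap]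
    constructor
    · rintro ⟨⟨h1, h2⟩, h3⟩
      refine ⟨h1, fun z hz => ?_⟩
      by_cases hzy : z = y
      · rw [hzy]; exact h3
      · exact h2 z (mem_erase.2 ⟨hzy, hz⟩)
    · rintro ⟨h1, h2⟩
      exact ⟨⟨h1, fun z hz => h2 z (mem_of_mem_erase hz)⟩, h2 y hy⟩
  have hint : ∀ y ∈ Y, ∀ y' ∈ Y, y ≠ y' → ∀ w ∈ cap E H (Y.erase y), w ∈ cap E H (Y.erase y') → w ∈ F := by
    intro y hy y' hy' hne w hw hw'
    refine mem_cap.2 ⟨(mem_cap.1 hw).1, fun z hz => ?_⟩
    by_cases hzy : z = y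
    · rw [hzy]
      exact (mem_cap.1 hw').2 y (mem_erase.2 ⟨hne, hy⟩)
    · exact (mem_cap.1 hw).2 z (mem_erase.2 ⟨hzy, hz⟩)
  have hFH : ∀ y ∈ Y, F ⊆ H y := fun y hy w hw => (mem_cap.1 hw).2 y hy
  -- counts
  have hFX : F \ X = F \ T0 := by
    ext w
    rw [mem_sdiff, mem_sdiff, hXm, not_or]
    constructor
    · rintro ⟨h1, h2, -⟩
      exact ⟨h1, h2⟩
    · rintro ⟨h1, h2⟩
      exact ⟨h1, h2, fun h3 => hyF w h3 h1⟩
  have hFc : (F \ X).card = 2 * r F := by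
    rw [hFX]
    unfold sg at hFt
    omega
  have hmem : ∀ y ∈ Y, ∀ w ∈ Y, w ∈ cap E H (Y.erase y) → w = y := by
    intro y hy w hw hwy
    by_contra hne
    exact hyF w hw (hint y hy w hw (fun h => hne h.symm) w hwy (hyM w hw))
  have hSc : ∀ y ∈ Y, ((cap E H (Y.erase y) \ F) \ X).card + 1 + 2 * r F = 2 * r (cap E H (Y.erase y)) := by
    intro y hy
    have h1 : cap E H (Y.erase y) \ T0 = insert y (((cap E H (Y.erase y) \ F) \ X) ∪ (F \ X)) := by
      ext w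
      simp only [mem_sdiff, mem_insert, mem_union, hXm, not_or]
      constructor
      · rintro ⟨h2, h3⟩
        by_cases h4 : w ∈ Y
        · exact Or.inl (hmem y hy w h4 h2)
        · by_cases h5 : w ∈ F
          · exact Or.inr (Or.inr ⟨h5, h3, h4⟩)
          · exact Or.inr (Or.inl ⟨⟨h2, h5⟩, h3, h4⟩)
      · rintro (h2 | h2 | h2)
        · rw [h2]; exact ⟨hyM y hy, hYT0 y hy⟩
        · exact ⟨h2.1.1, h2.2.1⟩
        · exact ⟨hFM y h2.1, h2.2.1⟩
    have h2 : y ∉ ((cap E H (Y.erase y) \ F) \ X) ∪ (F \ X) := by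
      intro h3
      have h4 : y ∈ X := (hXm y).2 (Or.inr hy)
      rcases mem_union.1 h3 with h3 | h3
      · exact (mem_sdiff.1 h3).2 h4
      · exact (mem_sdiff.1 h3).2 h4
    have h3 : Disjoint ((cap E H (Y.erase y) \ F) \ X) (F \ X) := by
      rw [disjoint_left]
      intro w hw hw'
      exact (mem_sdiff.1 (mem_sdiff.1 hw).1).2 (mem_sdiff.1 hw').1
    have h4 := hMt y hy
    unfold sg at h4
    rw [h1, card_insert_of_notMem h2, card_union_of_disjoint h3, hFc] at h4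
    omega
  have hrig : ∀ y ∈ Y, ∀ A ⊆ (cap E H (Y.erase y) \ F) \ X, A.Nonempty → A.card + 1 + 2 * r F ≤ 2 * r (A ∪ F) := by
    intro y hy A hA hAn
    have hAX : ∀ w ∈ A, w ∉ X := fun w hw => (mem_sdiff.1 (hA hw)).2
    have hAF : ∀ w ∈ A, w ∉ F := fun w hw => (mem_sdiff.1 (mem_sdiff.1 (hA hw)).1).2
    by_contra hcon
    have hAE : A ∪ F ⊆ E := union_subset (hA.trans (sdiff_subset.trans (sdiff_subset.trans (hME y)))) hFE
    have h1 := hn (A ∪ F) hAE
    have h2 : (A ∪ F) \ T0 = A ∪ (F \ X) := by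
      rw [hFX]
      ext w
      rw [mem_sdiff, mem_union, mem_union, mem_sdiff]
      constructor
      · rintro ⟨h3 | h3, h4⟩
        · exact Or.inl h3
        · exact Or.inr ⟨h3, h4⟩
      · rintro (h3 | h3)
        · exact ⟨Or.inl h3, fun h4 => hAX w h3 ((hXm w).2 (Or.inl h4))⟩
        · exact ⟨Or.inr h3.1, h3.2⟩
    have h3 : ((A ∪ F) \ T0).card = A.card + 2 * r F := by
      rw [h2, card_union_of_disjoint, hFc]
      rw [disjoint_left]
      intro w hw hw'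
      exact hAF w hw (mem_sdiff.1 hw').1
    have h4 : sg r T0 (A ∪ F) = 0 := by
      unfold sg at h1 ⊢
      rw [h3] at h1 ⊢
      omega
    have h5 : ∀ z ∈ Y, z ∉ A ∪ F := by
      intro z hz h6
      rcases mem_union.1 h6 with h6 | h6
      · exact hAX z h6 ((hXm z).2 (Or.inr hz))
      · exact hyF z hz h6
    obtain ⟨a, ha⟩ := hAn
    refine hAF a ha (mem_cap.2 ⟨hAE (mem_union_left _ ha), fun z hz => ?_⟩)
    exact hm.x0 z hz _ hAE h4 (h5 z hz) (mem_union_left _ ha)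
  -- the two sets of tokens
  have hHs : ∀ y ∈ Y, Hs (m y) = H y := fun y hy => TG.uniq (hms.tg (hm.mp y hy)) (hm.tg1 hy)
  have k1 : ∀ y ∈ Y, DD r f T0 H y ⊆ cap E H (Y.erase y) := by
    intro y hy w hw
    have hwE : w ∈ E := by
      rcases mem_union.1 (DD.sub hE hc hy hw) with h | h
      · exact hc.g0.1 h
      · exact hc.g1.1 h
    refine mem_cap.2 ⟨hwE, fun z hz => ?_⟩
    have hz' := mem_erase.1 hz
    exact dsub hE (em hE) hc hm hk hy hz'.2 hz'.1 hw
  have k2 : ∀ y ∈ Y, DD r f T1 Hs (m y) ⊆ cap E H (Y.erase y) := by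
    intro y hy w hw
    have hwE : w ∈ E := by
      rcases mem_union.1 (DD.sub hE hc.swap (hm.mp y hy) hw) with h | h
      · exact hc.g1.1 h
      · exact hc.g0.1 h
    refine mem_cap.2 ⟨hwE, fun z hz => ?_⟩
    have hz' := mem_erase.1 hz
    rw [← hHs z hz'.2]
    exact dsub hE (em hE) hc.swap hms hks (hm.mp y hy) (hm.mp z hz'.2)
      (fun h => hz'.1 (hm.mi hz'.2 hy h)) hw
  have x1 : ∀ y ∈ Y, ∀ w ∈ DD r f T0 H y, w ∈ X := fun y hy w hw => DD.sub hE hc hy hw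
  have x2 : ∀ y ∈ Y, ∀ w ∈ DD r f T1 Hs (m y), w ∈ X := by
    intro y hy w hw
    have h1 := DD.sub (H := Hs) hE hc.swap (hm.mp y hy) hw
    rw [hX, union_comm]
    exact h1
  -- adjacency in all factors
  have hadj : ∀ y ∈ Y, ∃ J ⊆ (cap E H (Y.erase y) \ F) \ X, J.card + 1 + r F = r (cap E H (Y.erase y)) ∧
      r ((((cap E H (Y.erase y) \ F) \ X) \ J) ∪ F) = r (cap E H (Y.erase y)) ∧
      (∃ x ∈ DD r f T0 H y, r (insert x (J ∪ F)) = r (cap E H (Y.erase y))) ∧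
      (∃ x ∈ DD r f T1 Hs (m y), r (insert x (J ∪ F)) = r (cap E H (Y.erase y))) := by
    intro y hy
    by_contra hJ
    set M : Finset α := cap E H (Y.erase y) with hM
    set S : Finset α := (M \ F) \ X with hS
    have hSF : Disjoint S F := by
      rw [disjoint_left]
      intro w hw hw'
      exact (mem_sdiff.1 (mem_sdiff.1 hw).1).2 hw'
    have hSM : S ⊆ M := sdiff_subset.trans sdiff_subset
    have hd1 : Disjoint (DD r f T0 H y) S := by
      rw [disjoint_left]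
      intro w hw hw'
      exact (mem_sdiff.1 hw').2 (x1 y hy w hw)
    have hd2 : Disjoint (DD r f T1 Hs (m y)) S := by
      rw [disjoint_left]
      intro w hw hw'
      exact (mem_sdiff.1 hw').2 (x2 y hy w hw)
    have hl : ∀ x ∈ DD r f T0 H y ∪ DD r f T1 Hs (m y), r (insert x F) ≠ r F := by
      intro x hx
      rcases mem_union.1 hx with hx | hx
      · exact DD.nl hE hc hm hy (hFH y hy) x hx
      · exact DD.nl hE hc.swap hms (hm.mp y hy) (by rw [hHs y hy]; exact hFH y hy) x hx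
    have hmod : r M + r (H y) = r (M ∪ H y) + r (M ∩ H y) :=
      (ti_mod hr hn (hME y) (hm.hE y hy) (hMt y hy) (hm.t0 y hy)).1
    have col1 : ∀ x ∈ DD r f T0 H y, r (F ∪ (DD r f T0 H y).erase x) = r (F ∪ DD r f T0 H y) := by
      have h1 := DD.col (H := H) (U := M) hE hc hy (k1 y hy) hmod
      rw [hMH y hy] at h1
      exact h1
    have col2 : ∀ x ∈ DD r f T1 Hs (m y), r (F ∪ (DD r f T1 Hs (m y)).erase x) = r (F ∪ DD r f T1 Hs (m y)) := by
      have h1 := DD.col (H := Hs) (U := M) hE hc.swap (hm.mp y hy) (k2 y hy) (by rw [hHs y hy]; exact hmod)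
      rw [hHs y hy, hMH y hy] at h1
      exact h1
    have hrk : ∀ Z ⊆ S ∪ F ∪ (DD r f T0 H y ∪ DD r f T1 Hs (m y)), r Z ≤ r M := by
      intro Z hZ
      exact hr.mono Z M (hZ.trans (union_subset (union_subset hSM (hFM y)) (union_subset (k1 y hy) (k2 y hy))))
    rcases adjF (r := r) (S := S) (F := F) (K1 := DD r f T0 H y) (K2 := DD r f T1 Hs (m y)) (g := r M)
      hr hSF hd1 hd2 (DD.ne hm hy) (DD.ne hms (hm.mp y hy)) hl (hSc y hy) (hrig y hy) hrk with
      ⟨J, h1, h2, -, h4, h5, h6⟩ | ⟨h1, h2⟩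
    · exact hJ ⟨J, h1, h2, h4, h5, h6⟩
    · refine hno ⟨F, M, S, DD r f T0 H y, DD r f T1 Hs (m y), ?_, DD.ind hE hc hm hk hy,
        DD.ind hE hc.swap hms hks (hm.mp y hy)⟩
      refine ⟨hME y, hFM y, hSM, hSF, k1 y hy, k2 y hy, hd1, hd2, DD.ne hm hy, DD.ne hms (hm.mp y hy), hl,
        DD.simple hE hc hm hk hy, DD.simple hE hc.swap hms hks (hm.mp y hy), col1, col2, hSc y hy, hrig y hy,
        ?_, h1, h2⟩
      intro J hJS hJc hJ3
      by_contra hcon
      rw [not_or] at hcon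
      obtain ⟨h3, h4⟩ := hcon
      push Not at h3 h4
      exact hJ ⟨J, hJS, hJc, hJ3, h3, h4⟩
  have hch : ∀ y : α, ∃ (J : Finset α) (d d' : α), y ∈ Y → (J ⊆ (cap E H (Y.erase y) \ F) \ X ∧
      J.card + 1 + r F = r (cap E H (Y.erase y)) ∧
      r ((((cap E H (Y.erase y) \ F) \ X) \ J) ∪ F) = r (cap E H (Y.erase y)) ∧
      d ∈ DD r f T0 H y ∧ r (insert d (J ∪ F)) = r (cap E H (Y.erase y)) ∧
      d' ∈ DD r f T1 Hs (m y) ∧ r (insert d' (J ∪ F)) = r (cap E H (Y.erase y))) := by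
    intro y
    by_cases hy : y ∈ Y
    · obtain ⟨J, h1, h2, h3, ⟨x, h4, h5⟩, ⟨x', h6, h7⟩⟩ := hadj y hy
      exact ⟨J, x, x', fun _ => ⟨h1, h2, h3, h4, h5, h6, h7⟩⟩
    · exact ⟨∅, y, y, fun h => absurd h hy⟩
  choose J d d' hJ using hch
  -- the colour on the two sides
  obtain ⟨g1, g2⟩ := multi_all hE hc hm hk d (fun y hy => (hJ y hy).2.2.2.1)
  have hsurj : ∀ x : α, ∃ y, x ∈ T0 \ T1 → y ∈ Y ∧ m y = x := by
    intro x
    by_cases hx : x ∈ T0 \ T1
    · obtain ⟨y, hy, hyx⟩ := hm.surj hc hx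
      exact ⟨y, fun _ => ⟨hy, hyx⟩⟩
    · exact ⟨x, fun h => absurd h hx⟩
  choose n hn' using hsurj
  obtain ⟨g3, g4⟩ := multi_all hE hc.swap hms hks (fun x => d' (n x)) (by
    intro x hx
    obtain ⟨h1, h2⟩ := hn' x hx
    have h3 := (hJ (n x) h1).2.2.2.2.2.1
    rw [h2] at h3
    exact h3)
  have himg : (T0 \ T1).image (fun x => d' (n x)) = Y.image d' := by
    ext w
    rw [mem_image, mem_image]
    constructor
    · rintro ⟨x, hx, rfl⟩
      exact ⟨n x, (hn' x hx).1, rfl⟩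
    · rintro ⟨y, hy, rfl⟩
      refine ⟨m y, hm.mp y hy, ?_⟩
      obtain ⟨h1, h2⟩ := hn' (m y) (hm.mp y hy)
      show d' (n (m y)) = d' y
      rw [hm.mi h1 hy h2]
  rw [himg, union_comm T1 T0] at g3 g4
  have hst := glue (Y := Y) (M := fun y => cap E H (Y.erase y)) (J := J) (d := d) (d' := d') hE hc.g0.1 hc.g0.2.1.1 hYE hYT0
    hXY hn hFE hFt (fun y _ => hME y) hMt (fun y _ => hFM y) hyM hyF hint (fun y hy => (hJ y hy).1)
    (fun y hy => (hJ y hy).2.1) (fun y hy => (hJ y hy).2.2.1)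
    (fun y hy => x1 y hy _ (hJ y hy).2.2.2.1) (fun y hy => k1 y hy (hJ y hy).2.2.2.1)
    (fun y hy => (hJ y hy).2.2.2.2.1)
    (fun y hy => x2 y hy _ (hJ y hy).2.2.2.2.2.1) (fun y hy => k2 y hy (hJ y hy).2.2.2.2.2.1)
    (fun y hy => (hJ y hy).2.2.2.2.2.2) g1.2.1 g3.2.1
  exact g4 (hQ _ _ hst g2)

end

section

open Pool.Agent.WG59 Pool.Agent.EX59

variable {α : Type*} [DecidableEq α] {r : Finset α → ℕ} {E F X Y Z A B J b b' : Finset α} {x y : α} {f : ℕ}
  {Q : Finset α → Prop}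

/-- A set `Z` of `f + 1` elements with good bases of both colours gives completely non-adjacent sets. -/
theorem k1Znai (hE : Env r E f) (hQ : ∀ A A', Stp r E f A A' → Q A → Q A') (hZ : Z ⊆ E)
    (hZc : Z.card = f + 1) (hb : Gd r E f b) (hbZ : b ⊆ Z) (hb' : Gd r E f b') (hbZ' : b' ⊆ Z) (hq : Q b)
    (hq' : ¬ Q b') : ∃ A B, NAP r E (FF r r E Z) E ((E \ Z) \ FF r r E Z) A B ∧ r A = A.card ∧ r B = B.card := by
  classical
  have hr := hE.rk
  have hok : Ok r r E Z := ok_sub (gd_ok hE hb) hbZ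
  set F : Finset α := FF r r E Z with hFd
  have hFE : F ⊆ E := FF_sub
  have hFt : Ti r r Z F := FF_ti hr hr hok
  have hrE : ∀ X ⊆ E, r X ≤ f := fun X hX => by
    have := hr.mono X E hX
    rwa [hE.rank] at this
  have hmiss : ∀ T, Gd r E f T → T ⊆ Z → ∃ x ∈ Z, T = Z.erase x := by
    intro T hT hTZ
    have h1 := card_sdiff_add_card_eq_card hTZ
    have h2 := hT.2.1.1
    have h3 : (Z \ T).card = 1 := by omega
    obtain ⟨x, hx⟩ := card_eq_one.1 h3
    have hx' : x ∈ Z \ T := by rw [hx]; exact mem_singleton_self x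
    have hx'' := mem_sdiff.1 hx'
    refine ⟨x, hx''.1, ?_⟩
    ext z
    rw [mem_erase]
    constructor
    · intro hz
      exact ⟨fun e => hx''.2 (e ▸ hz), hTZ hz⟩
    · rintro ⟨hz, hz'⟩
      by_contra hn
      have h4 : z ∈ Z \ T := mem_sdiff.2 ⟨hz', hn⟩
      rw [hx, mem_singleton] at h4
      exact hz h4
  set A : Finset α := Z.filter fun x => Gd r E f (Z.erase x) ∧ Q (Z.erase x) with hAd
  set B : Finset α := Z.filter fun x => Gd r E f (Z.erase x) ∧ ¬ Q (Z.erase x) with hBd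
  have hA : ∀ x ∈ A, x ∈ Z ∧ Gd r E f (Z.erase x) ∧ Q (Z.erase x) := fun x hx => mem_filter.1 hx
  have hB : ∀ x ∈ B, x ∈ Z ∧ Gd r E f (Z.erase x) ∧ ¬ Q (Z.erase x) := fun x hx => mem_filter.1 hx
  obtain ⟨p, hpZ, hpb⟩ := hmiss b hb hbZ
  obtain ⟨p', hpZ', hpb'⟩ := hmiss b' hb' hbZ'
  have hpA : p ∈ A := mem_filter.2 ⟨hpZ, hpb ▸ hb, hpb ▸ hq⟩
  have hpB : p' ∈ B := mem_filter.2 ⟨hpZ', hpb' ▸ hb', hpb' ▸ hq'⟩
  have htF : ∀ x ∈ Z, Gd r E f (Z.erase x) → x ∉ F := by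
    intro x hx hg
    exact ti_disj (gd_ok hE hg) (erase_subset _ _) hFE hFt x hx (notMem_erase x Z)
  -- outside `F` the complement of `Z` is strictly sparse
  have hsp2 : ∀ X ⊆ (E \ Z) \ F, X.Nonempty → X.card + 1 + r F + r F ≤ r (X ∪ F) + r (X ∪ F) := by
    intro X hX hXn
    have h0 : X ∪ F ⊆ E := union_subset (fun z hz => (mem_sdiff.1 (mem_sdiff.1 (hX hz)).1).1) hFE
    have h1 := hok (X ∪ F) h0
    have e1 : (X ∪ F) \ Z = X ∪ (F \ Z) := by
      ext z
      simp only [mem_sdiff, mem_union]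
      constructor
      · rintro ⟨h | h, h2⟩
        · exact Or.inl h
        · exact Or.inr ⟨h, h2⟩
      · rintro (h | h)
        · exact ⟨Or.inl h, (mem_sdiff.1 (mem_sdiff.1 (hX h)).1).2⟩
        · exact ⟨Or.inr h.1, h.2⟩
    have d1 : Disjoint X (F \ Z) := by
      rw [disjoint_left]
      intro z hz hz'
      exact (mem_sdiff.1 (hX hz)).2 (mem_sdiff.1 hz').1
    have h2 : ((X ∪ F) \ Z).card = X.card + (F \ Z).card := by rw [e1, card_union_of_disjoint d1]
    unfold Ti at hFt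
    by_contra hlt
    have h3 : X ∪ F ⊆ F := FF_max h0 (by unfold Ti; omega)
    obtain ⟨z, hz⟩ := hXn
    exact (mem_sdiff.1 (hX hz)).2 (h3 (mem_union_left _ hz))
  -- `x ∉ F` for elements of `E` means `x` outside the closure
  have hFfl : ∀ x ∈ Z, x ∉ F → r (insert x F) ≠ r F := by
    intro x hx hxF h0
    have h1 : insert x F ⊆ F := FF_max (insert_subset (hZ hx) hFE) (by
      unfold Ti at hFt ⊢
      rw [insert_sdiff_of_mem F hx, h0]
      exact hFt)
    exact hxF (h1 (mem_insert_self x F))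
  have hAl : ∀ x ∈ A, r (insert x F) ≠ r F := fun x hx => hFfl x (hA x hx).1 (htF x (hA x hx).1 (hA x hx).2.1)
  have hBl : ∀ x ∈ B, r (insert x F) ≠ r F := fun x hx => hFfl x (hB x hx).1 (htF x (hB x hx).1 (hB x hx).2.1)
  -- no common `J`
  have hno : ∀ J ⊆ (E \ Z) \ F, J.card + 1 + r F = f → r (((E \ Z) \ F) \ J ∪ F) = f →
      ∀ x ∈ A, ∀ y ∈ B, r (insert x J ∪ F) = f → r (insert y J ∪ F) = f → False := by
    intro J hJ hJc hJ3 x hx y hy hxJ hyJ
    have h1 := stp_of_J hE hZ hZc hok hFE hFt hJ hJc hJ3 (hA x hx).1 (hA x hx).2.1.2.1.2 hxJ (hB y hy).1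
      (hB y hy).2.1.2.1.2 hyJ
    exact (hB y hy).2.2 (hQ _ _ h1 (hA x hx).2.2)
  -- T*: skewness
  have hpp : p ≠ p' := by
    intro e
    exact (hB p' hpB).2.2 (e ▸ (hA p hpA).2.2)
  -- every element of a colour class is in the closure of the rest
  have htok : ∀ x ∈ Z, Gd r E f (Z.erase x) → ∀ K : Finset α,
      (∀ y, y ∈ K ↔ (y ∈ Z ∧ y ≠ x ∧ Gd r E f (Z.erase y) ∧ (Q (Z.erase x) ↔ Q (Z.erase y)))) →
      r (insert x (F ∪ K)) = r (F ∪ K) := by
    intro x hx hg K hK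
    have hxE : x ∈ E \ Z.erase x := mem_sdiff.2 ⟨hZ hx, notMem_erase x Z⟩
    have h1 := DP91.tg_ff hE hg hxE
    rw [insert_erase hx] at h1
    refine tst hE hQ hg hxE h1 ?_
    intro y
    rw [hK y]
    have e1 : y ≠ x → insert x ((Z.erase x).erase y) = Z.erase y := by
      intro hne
      rw [erase_right_comm, insert_erase (mem_erase.2 ⟨hne.symm, hx⟩)]
    constructor
    · rintro ⟨h2, h3, h4, h5⟩
      rw [e1 h3]
      exact ⟨mem_erase.2 ⟨h3, h2⟩, htF y h2 h4, h4.2.1.2, h5⟩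
    · rintro ⟨h2, h3, h4, h5⟩
      have h6 := mem_erase.1 h2
      rw [e1 h6.1] at h4 h5
      exact ⟨h6.2, h6.1, gd_er hZ hZc hok h6.2 h4 h3, h5⟩
  have hAc : ∀ x ∈ A, r (insert x (F ∪ A.erase x)) = r (F ∪ A.erase x) := by
    intro x hx
    refine htok x (hA x hx).1 (hA x hx).2.1 _ ?_
    intro y
    have h1 := (hA x hx).2.2
    rw [mem_erase, hAd, mem_filter]
    tauto
  have hBc : ∀ x ∈ B, r (insert x (F ∪ B.erase x)) = r (F ∪ B.erase x) := by
    intro x hx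
    refine htok x (hB x hx).1 (hB x hx).2.1 _ ?_
    intro y
    have h1 := (hB x hx).2.2
    rw [mem_erase, hBd, mem_filter]
    tauto
  -- pairs of tokens of one colour are independent
  have hpair : ∀ x y z : α, x ∈ Z → y ∈ Z → z ∈ Z → r (Z.erase z) = f → x ≠ y → x ≠ z → y ≠ z → r {x, y} = 2 := by
    intro x y z hx hy hz hzr hxy hxz hyz
    have h1 : r (Z.erase z) = (Z.erase z).card := by
      rw [card_erase_of_mem hz]; omega
    have h2 := ind_sub hr h1 (insert_subset (mem_erase.2 ⟨hxz, hx⟩) (singleton_subset_iff.2 (mem_erase.2 ⟨hyz, hy⟩)))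
    rw [h2, card_pair hxy]
  have hAB : ∀ x ∈ A, x ∉ B := fun x hx hx' => (hB x hx').2.2 (hA x hx).2.2
  have hAE : A ⊆ E := fun x hx => hZ (hA x hx).1
  have hBE : B ⊆ E := fun x hx => hZ (hB x hx).1
  have hfE := hE.rank
  have n1 := card_sdiff_add_card_eq_card hZ
  have n2 : ((E \ Z) \ F).card + ((E \ Z) ∩ F).card = (E \ Z).card := card_sdiff_add_card_inter _ _
  have e2 : (E \ Z) ∩ F = F \ Z := by
    ext z
    simp only [mem_inter, mem_sdiff]
    constructor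
    · rintro ⟨⟨h1, h2⟩, h3⟩; exact ⟨h3, h2⟩
    · rintro ⟨h1, h2⟩; exact ⟨⟨hFE h1, h2⟩, h1⟩
  rw [e2] at n2
  have n4 := hE.card
  have hFt' := hFt
  unfold Ti at hFt'
  have hYE : (E \ Z) \ F ⊆ E := sdiff_subset.trans sdiff_subset
  have hdZ : ∀ K ⊆ Z, Disjoint K ((E \ Z) \ F) := by
    intro K hK
    rw [disjoint_left]
    intro z hz hz'
    exact (mem_sdiff.1 (mem_sdiff.1 hz').1).2 (hK hz)
  have hlAB : ∀ x ∈ A ∪ B, r (insert x F) ≠ r F := by
    intro x hx
    rcases mem_union.1 hx with hx | hx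
    · exact hAl x hx
    · exact hBl x hx
  have her : ∀ K : Finset α, (∀ x ∈ K, r (insert x (F ∪ K.erase x)) = r (F ∪ K.erase x)) →
      ∀ x ∈ K, r (F ∪ K.erase x) = r (F ∪ K) := by
    intro K hK x hx
    rw [← hK x hx, ← union_insert, insert_erase hx]
  have hnr : ∀ (x : α) (J : Finset α), insert x (J ∪ F) = insert x J ∪ F := fun x J => (insert_union x J F).symm
  rcases EX84.adjF (S := (E \ Z) \ F) (F := F) (K1 := A) (K2 := B) (g := f) hr disjoint_sdiff_self_left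
    (hdZ A fun x hx => (hA x hx).1) (hdZ B fun x hx => (hB x hx).1) ⟨p, hpA⟩ ⟨p', hpB⟩ hlAB (by omega)
    (fun X hX hXn => by
      have h1 := hsp2 X hX hXn
      omega)
    (fun X hX => hrE X (hX.trans (union_subset (union_subset hYE hFE) (union_subset hAE hBE)))) with
    ⟨J, hJ, j1, j2, j3, ⟨x, hx, j4⟩, ⟨y, hy, j5⟩⟩ | ⟨h1, h2⟩
  · exact absurd (hno J hJ j1 j3 x hx y hy (by rw [insert_union]; exact j4) (by rw [insert_union]; exact j5)) id
  · have iA : r A = A.card := by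
      have h3 : r (Z.erase p') = (Z.erase p').card := by
        have h4 := (hB p' hpB).2.1.2.1
        rw [h4.1, h4.2]
      exact ind_sub hr h3 fun x hx => mem_erase.2 ⟨fun e => hAB x hx (e ▸ hpB), (hA x hx).1⟩
    have iB : r B = B.card := by
      have h3 : r (Z.erase p) = (Z.erase p).card := by
        have h4 := (hA p hpA).2.1.2.1
        rw [h4.1, h4.2]
      exact ind_sub hr h3 fun x hx => mem_erase.2 ⟨fun e => hAB p hpA (e ▸ hx), (hB x hx).1⟩
    refine ⟨A, B, ⟨Subset.refl E, hFE, hYE, disjoint_sdiff_self_left, hAE, hBE, hdZ A fun x hx => (hA x hx).1,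
      hdZ B fun x hx => (hB x hx).1, ⟨p, hpA⟩, ⟨p', hpB⟩, hlAB, ?_, ?_, her A hAc, her B hBc, by omega, ?_, ?_, h1,
      by rw [hfE]; exact h2⟩, iA, iB⟩
    · intro x hx y hy hxy
      refine hpair x y p' (hA x hx).1 (hA y hy).1 hpZ' (hB p' hpB).2.1.2.1.2 hxy ?_ ?_
      · intro e; exact hAB x hx (e ▸ hpB)
      · intro e; exact hAB y hy (e ▸ hpB)
    · intro x hx y hy hxy
      refine hpair x y p (hB x hx).1 (hB y hy).1 hpZ (hA p hpA).2.1.2.1.2 hxy ?_ ?_
      · intro e; exact hAB p hpA (e ▸ hx)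
      · intro e; exact hAB p hpA (e ▸ hy)
    · intro X hX hXn
      have h3 := hsp2 X hX hXn
      omega
    · intro J hJ hJc hJ3
      rw [hfE] at hJc hJ3 ⊢
      by_contra hcon
      rw [not_or] at hcon
      obtain ⟨h3, h4⟩ := hcon
      push Not at h3 h4
      obtain ⟨x, hx, h5⟩ := h3
      obtain ⟨y, hy, h6⟩ := h4
      rw [hnr] at h5 h6
      exact hno J hJ hJc hJ3 x hx y hy h5 h6

/-- Two good bases of different colours give independent completely non-adjacent sets. -/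
theorem nai_of (hE : Env r E f) (hQ : ∀ A A', Stp r E f A A' → Q A → Q A') (hA : Gd r E f A) (hB : Gd r E f B)
    (qA : Q A) (qB : ¬ Q B) : ∃ F M S K1 K2, NAP r E F M S K1 K2 ∧ r K1 = K1.card ∧ r K2 = K2.card := by
  obtain ⟨T0, T1, hc, hk⟩ := EX84.exists_clo hA hB qA qB
  rcases Nat.lt_or_ge (T0 \ T1).card 2 with h | h
  · have h1 : (T0 ∪ T1).card = f + 1 := by
      have h2 : (T0 ∪ T1).card = T1.card + (T0 \ T1).card := by
        rw [union_comm, ← union_sdiff_self_eq_union, card_union_of_disjoint disjoint_sdiff]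
      have h3 := hc.g1.2.1.1
      omega
    obtain ⟨A', B', h2⟩ := k1Znai hE hQ (union_subset hc.g0.1 hc.g1.1) h1 hc.g0 subset_union_left hc.g1
      subset_union_right hc.q0 hc.q1
    exact ⟨_, _, _, _, _, h2⟩
  · exact k2nai hE hQ hc h

theorem rF_pos {M S K1 K2 : Finset α} (hr : RankFn r) (h : NAP r E F M S K1 K2) (hi : r K1 = K1.card) : 0 < r F := by
  by_contra h0
  have hF : r F = 0 := by omega
  obtain ⟨x, hx⟩ := h.n1
  have h1 := h.c1 x hx
  have h2 : r (F ∪ K1.erase x) ≤ r F + r (K1.erase x) := by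
    have := hr.submod F (K1.erase x)
    omega
  have h3 := hr.le_card (K1.erase x)
  have h4 := hr.mono K1 (F ∪ K1) subset_union_right
  have h5 := card_pos.2 ⟨x, hx⟩
  rw [card_erase_of_mem hx] at h3
  omega

end

end Pool.Agent.SA65
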